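import Pool.Agent.K7.H68.MO.Keel2
import Pool.Agent.K7.H68.MO.Span
import Pool.Agent.K7.H68.MO.Indep
import Pool.Agent.K7.H57.MO.Push
import Pool.Agent.K7.H50.MO.Num

set_option autoImplicit false

open Finset MvPolynomial

/-!
# The characteristic polynomials of the total cohomology of `M̄_{0,n+1}` are not log-concave

`Coh M` is the rational cohomology ring of the moduli space `M̄_{0,M}` of stable rational curves with
marked points indexed by the finite set `M`, given by Keel's presentation: the generators are the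
boundary divisors `D_S`, where `S` and its complement have at least two elements (`Bdry M`), and the
relations are: `D_S = D_{Sᶜ}` (`relCompl`); `D_S D_T = 0` unless `S ⊆ T`, `T ⊆ S`, `S ⊆ Tᶜ` or `Tᶜ ⊆ S`
(`relProd`); and, for distinct `i, j, k, l`, the sum of the `D_S` with `i, j ∈ S`, `k, l ∉ S` is the sum
of the `D_S` with `i, k ∈ S`, `j, l ∉ S` (`relSum`). A permutation `σ` of `M` acts by `D_S ↦ D_{σ S}`
(`actOn σ`).

`P n` and `Q n` are the polynomials `𝒫_n(m, 1)` and `𝒬_n(m, 1)` of the problem: the characteristic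
polynomials `(1 / n!) ∑ σ, trace(σ) m ^ (number of cycles of σ)` of the symmetric group on `n` letters,
acting on `Coh (Fin n)` and on `Coh (Option (Fin n))` (the `n + 1` marked points are the elements of
`Fin n` and the fixed point `none`).

We show that the coefficients `a₁, a₂, a₃` of `m, m², m³` in `𝒬_120(m, 1)` satisfy `a₂² < a₁ a₃`
(they are about `15.5`, `1696.8` and `189262.7`), so that `𝒬_n(m, t)` is not length log-concave at
`t = 1` for `n = 120`.

Proof. The monomials `∏ x_S ^ (a S)` with the support of `a` a nested family of subsets of `Fin n` and `a S`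
at most the number of children of `S` minus two form a basis of the ring (`K7/H68/MO/Span, Indep, Keel,
Keel2`, `K7/H57/MO/Push`, `K7/H78/MO`), so `𝒬_n` counts the orbits of coloured forests; a decomposition
of the forests into components (`K7/H68/MO/Conf, Cut, Tra, Count, Poly`) gives a recursion for these
polynomials, which is evaluated modulo `m⁴` by the kernel (`K7/H50/MO`).
-/

namespace Pool.Agent.Results.MP_6b5a33_co.NotLogConcave

section Ring

variable (M : Type) [Fintype M] [DecidableEq M]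

/-- The boundary divisors `D_S`: `S` and its complement have at least two elements. -/
abbrev Bdry := {S : Finset M // 2 ≤ S.card ∧ 2 ≤ Sᶜ.card}

/-- The relations `D_S = D_T`, `T` the complement of `S`. -/
def relCompl : Set (MvPolynomial (Bdry M) ℚ) :=
  {p | ∃ S T : Bdry M, T.1 = S.1ᶜ ∧ p = X S - X T}

/-- The relations `D_S D_T = 0`, unless `S ⊆ T`, `T ⊆ S`, `S ⊆ Tᶜ` or `Tᶜ ⊆ S`. -/
def relProd : Set (MvPolynomial (Bdry M) ℚ) :=
  {p | ∃ S T : Bdry M, ¬ S.1 ⊆ T.1 ∧ ¬ T.1 ⊆ S.1 ∧ ¬ S.1 ⊆ T.1ᶜ ∧ ¬ T.1ᶜ ⊆ S.1 ∧ p = X S * X T}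

variable {M} in
/-- The sum of the `D_S` with `i, j ∈ S` and `k, l ∉ S`. -/
noncomputable def divSum (i j k l : M) : MvPolynomial (Bdry M) ℚ :=
  ∑ S : Bdry M with i ∈ S.1 ∧ j ∈ S.1 ∧ k ∉ S.1 ∧ l ∉ S.1, X S

/-- The linear relations, for distinct `i, j, k, l`. -/
def relSum : Set (MvPolynomial (Bdry M) ℚ) :=
  {p | ∃ i j k l : M, i ≠ j ∧ i ≠ k ∧ i ≠ l ∧ j ≠ k ∧ j ≠ l ∧ k ≠ l ∧
    p = divSum i j k l - divSum i k j l}

/-- Keel's ideal of relations. -/
noncomputable def relIdeal : Ideal (MvPolynomial (Bdry M) ℚ) := Ideal.span (relCompl M ∪ relProd M ∪ relSum M)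

/-- The rational cohomology ring of `M̄_{0,M}`, by Keel's presentation. -/
def Coh : Type := MvPolynomial (Bdry M) ℚ ⧸ relIdeal M

noncomputable instance : CommRing (Coh M) := Ideal.Quotient.commRing (relIdeal M)

noncomputable instance : Algebra ℚ (Coh M) := Ideal.Quotient.algebra ℚ

variable {M}

/-- A permutation of the marked points permutes the boundary divisors. -/
def permBdry (σ : Equiv.Perm M) (S : Bdry M) : Bdry M :=
  ⟨S.1.map σ.toEmbedding, (Pool.Agent.K7.H68.MO.bdPerm σ S).2⟩

/-- The action of a permutation of the marked points on the cohomology ring: `D_S ↦ D_{σ S}`. -/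
noncomputable def actOn (σ : Equiv.Perm M) : Coh M →ₐ[ℚ] Coh M :=
  Ideal.quotientMapₐ (relIdeal M) (rename (permBdry σ)) (Pool.Agent.K7.H68.MO.keel_le σ)

/-- The trace of a permutation of the marked points on the total cohomology. -/
noncomputable def tra (σ : Equiv.Perm M) : ℚ := LinearMap.trace ℚ (Coh M) (actOn σ).toLinearMap

end Ring

/-- The number of cycles of `σ`, fixed points included: the number of classes of the relation of being in
the same cycle. -/
noncomputable def numCycles {n : ℕ} (σ : Equiv.Perm (Fin n)) : ℕ :=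
  Nat.card (Quotient (Equiv.Perm.SameCycle.setoid σ))

/-- The characteristic polynomial `(1 / n!) ∑ σ, χ(σ) m ^ (number of cycles of σ)`. -/
noncomputable def charPoly (n : ℕ) (χ : Equiv.Perm (Fin n) → ℚ) : Polynomial ℚ :=
  Polynomial.C ((n.factorial : ℚ)⁻¹) *
    ∑ σ : Equiv.Perm (Fin n), Polynomial.C (χ σ) * Polynomial.X ^ numCycles σ

/-- The polynomial `𝒫_n(m, 1)`: the symmetric group on the `n` marked points acts on the total
cohomology of `M̄_{0,n}`. -/
noncomputable def P (n : ℕ) : Polynomial ℚ := charPoly n fun σ => tra σ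

/-- The polynomial `𝒬_n(m, 1)`: the symmetric group acts on the total cohomology of `M̄_{0,n+1}`, fixing
the last marked point `none`. -/
noncomputable def Q (n : ℕ) : Polynomial ℚ := charPoly n fun σ => tra σ.optionCongr

/-- The coefficients `a 1, ..., a n` of `m ^ 1, ..., m ^ n` in the polynomial form a log-concave
sequence: they are nonnegative and `a (j - 1) * a (j + 1) ≤ a j ^ 2` for `1 < j < n`. -/
def LogConcave (F : Polynomial ℚ) (n : ℕ) : Prop :=
  (∀ j, 1 ≤ j → j ≤ n → 0 ≤ F.coeff j) ∧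
    ∀ j, 1 < j → j < n → F.coeff (j - 1) * F.coeff (j + 1) ≤ F.coeff j ^ 2

lemma tra_eq {n : ℕ} (σ : Equiv.Perm (Fin n)) : tra σ.optionCongr =
    LinearMap.trace ℚ (Pool.Agent.K7.H68.MO.Keel (Option (Fin n)))
      (Pool.Agent.K7.H68.MO.keelMap σ.optionCongr).toLinearMap := rfl

lemma Q_eq' (n : ℕ) : Q n = Pool.Agent.K7.H68.MO.Q n := by
  unfold Q charPoly Pool.Agent.K7.H68.MO.Q
  simp only [tra_eq]
  rfl

/-- The polynomial `𝒬_120(m, 1)` is not log-concave: the coefficients `a₁, a₂, a₃` of `m, m², m³`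
satisfy `a₂² < a₁ a₃`. In particular it is not true that all `𝒫_n(m, t)`, `n ≥ 3`, and all
`𝒬_n(m, t)`, `n ≥ 2`, are length log-concave at `t = 1`. -/
theorem result :
    (Q 120).coeff 2 ^ 2 < (Q 120).coeff 1 * (Q 120).coeff 3 ∧
    ¬ LogConcave (Q 120) 120 ∧
    ¬ ((∀ n, 3 ≤ n → LogConcave (P n) n) ∧ (∀ n, 2 ≤ n → LogConcave (Q n) n)) := by
  have h3 : Pool.Agent.K7.H68.MO.Job3 :=
    Pool.Agent.K7.H68.MO.job3 Pool.Agent.K7.H68.MO.job1 Pool.Agent.K7.H57.MO.job2
  have hQ : Q 120 = Pool.Agent.K7.H68.MO.G 120 := by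
    rw [Q_eq', Pool.Agent.K7.H68.MO.Q_eq Pool.Agent.K7.H68.MO.job1 h3 (by norm_num)]
  obtain ⟨h5, h6, h7, h8, h9⟩ := Pool.Agent.K7.H68.MO.job5
  have h10 := Pool.Agent.K7.H50.MO.job6 _ _ h5 h6 h7 h8 h9
  rw [← hQ] at h10
  have h11 : ¬ LogConcave (Q 120) 120 := by
    intro h
    have h12 := h.2 2 (by norm_num) (by norm_num)
    exact absurd h10 (not_lt.2 h12)
  exact ⟨h10, h11, fun h => h11 (h.2 120 (by norm_num))⟩

end Pool.Agent.Results.MP_6b5a33_co.NotLogConcave
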